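import Pool.Agent.Q120.ME.Main
import Pool.Agent.Q26.ME.DV
import Pool.Agent.Q184.ME.EVT
import Pool.Agent.Q92.ME.CHE
import Pool.Agent.Q285.ME.ASU
import Pool.Agent.Q222.ME.UPL
import Pool.Agent.Q24.ME.FIN
import Pool.Agent.Q24.ME.WAG
import Pool.Agent.Q285.ME.Constr
import Pool.Agent.Q224.ME.ENM
import Pool.Agent.Q224.ME.KLB
import Pool.Agent.Q96.ME.SLL
import Pool.Agent.Q222.ME.LOW
import Pool.Agent.Q96.ME.ASL

/-!
# The number of elements of random sets near models with independent elements: the general theorem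

`U` is a set of integers, `p n → 0` (`n ∈ U`), `∑ p n = ∞`. The model contains each `n ∈ U` independently with probability `p n`, `mass U p x` is the
expected number of elements below `x`. For any random set `A` the relative entropy (nats) of the law of `A ∩ U ∩ [0, x)` with respect
to the model is `relEnt p μ A (ind U x)`, the number of elements is `cnt U (A ω) x`.
-/

set_option autoImplicit false

namespace Pool.Agent.Q120.ME

open Finset MeasureTheory Filter Pool.Agent.Q120.ET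
open scoped Topology

theorem jobs : MEJobs where
  asu := Pool.Agent.Q285.ME.t_ASU (Pool.Agent.Q184.ME.t_EVT Pool.Agent.Q26.ME.t_DV) (Pool.Agent.Q92.ME.t_CHE Pool.Agent.Q26.ME.t_GEN)
  asl := Pool.Agent.Q96.ME.t_ASL Pool.Agent.Q285.ME.t_CON Pool.Agent.Q224.ME.t_ENM
  upl := Pool.Agent.Q222.ME.t_UPL Pool.Agent.Q26.ME.t_DV Pool.Agent.Q26.ME.t_GEN
  low := Pool.Agent.Q222.ME.t_LOW Pool.Agent.Q285.ME.t_CON Pool.Agent.Q224.ME.t_ENM Pool.Agent.Q224.ME.t_KLB Pool.Agent.Q96.ME.t_SLL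
  fin := Pool.Agent.Q24.ME.t_FIN (Pool.Agent.Q184.ME.t_EVT Pool.Agent.Q26.ME.t_DV)
  wag := Pool.Agent.Q24.ME.t_WAG

/-- The class `δ`: the relative entropy up to `x` is at most `(δ + o(1)) mass x`. -/
def GCls (U : Set ℕ) (p : ℕ → ℝ) (δ : ℝ) {Ω : Type*} [MeasurableSpace Ω] (μ : Measure Ω) (A : Ω → Set ℕ) : Prop :=
  IsRandomSet A ∧ ∀ ε : ℝ, 0 < ε → ∀ᶠ x : ℕ in atTop, relEnt p μ A (ind U x) ≤ (δ + ε) * mass U p x

theorem finite_iff' (U S : Set ℕ) : (S ∩ U).Finite ↔ ∃ N : ℕ, ∀ n ∈ S, n ∈ U → n < N := by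
  constructor
  · intro h
    obtain ⟨N, hN⟩ := h.bddAbove
    exact ⟨N + 1, fun n h1 h2 => Nat.lt_succ_of_le (hN ⟨h1, h2⟩)⟩
  · rintro ⟨N, hN⟩
    exact (Set.finite_lt_nat N).subset (fun n hn => hN n hn.1 hn.2)

/-- **The general theorem.** (1) For nondecreasing `d ≥ 0` all random sets with relative entropies at most `d x` (up to `x`, for large `x`)
almost surely have `cnt ~ mass` iff `∑_{n ∈ U} p n * d n / mass n ^ 2 < ∞`. (2) A probability measure `ν` is the law of `lim cnt / mass` for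
some random set of class `δ` iff it lives on `[0, ∞)` and `∫ (u log u - u + 1) dν ≤ δ`. (3) The largest probability of `A ∩ U` being finite, for
random sets `A` of class `δ`, is `min 1 δ`. -/
theorem general (U : Set ℕ) (p : ℕ → ℝ) (hU : Rates U p) :
    (∀ d : ℕ → ℝ, Monotone d → (∀ n, 0 ≤ d n) →
      ((∀ (Ω : Type) [MeasurableSpace Ω] (μ : Measure Ω) [IsProbabilityMeasure μ] (A : Ω → Set ℕ), IsRandomSet A →
        (∀ᶠ x : ℕ in atTop, relEnt p μ A (ind U x) ≤ d x) →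
          ∀ᵐ ω ∂μ, Tendsto (fun x : ℕ => (cnt U (A ω) x : ℝ) / mass U p x) atTop (𝓝 1)) ↔ Conv U p d)) ∧
    ∀ δ : ℝ, 0 ≤ δ →
      (∀ ν : Measure ℝ, IsProbabilityMeasure ν →
        ((∃ (Ω : Type) (_ : MeasurableSpace Ω) (μ : Measure Ω) (_ : IsProbabilityMeasure μ) (A : Ω → Set ℕ) (L : Ω → ℝ), GCls U p δ μ A ∧
          Measurable L ∧ μ.map L = ν ∧ ∀ᵐ ω ∂μ, Tendsto (fun x : ℕ => (cnt U (A ω) x : ℝ) / mass U p x) atTop (𝓝 (L ω))) ↔
        ν (Set.Iio 0) = 0 ∧ ∫⁻ u, ENNReal.ofReal (u * Real.log u - u + 1) ∂ν ≤ ENNReal.ofReal δ)) ∧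
      (∀ (Ω : Type) [MeasurableSpace Ω] (μ : Measure Ω) [IsProbabilityMeasure μ] (A : Ω → Set ℕ), GCls U p δ μ A →
        μ.real {ω | (A ω ∩ U).Finite} ≤ δ) ∧
      ∃ (Ω : Type) (_ : MeasurableSpace Ω) (μ : Measure Ω) (_ : IsProbabilityMeasure μ) (A : Ω → Set ℕ), GCls U p δ μ A ∧
        μ.real {ω | (A ω ∩ U).Finite} = min 1 δ := by
  have J := jobs
  refine ⟨fun d hm hd => ⟨fun h => ?_, fun h Ω _ μ _ A hA hD => J.asu U p d hU hm hd h Ω μ A hA hD⟩, fun δ hδ => ⟨fun ν _ => ⟨?_, ?_⟩, ?_, ?_⟩⟩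
  · by_contra hns
    obtain ⟨Ω, m, μ, hμ, A, hA, h1, h2⟩ := J.asl U p d hU hm hd hns
    obtain ⟨ω, h3, h4⟩ := ((h Ω μ A hA h1).and h2).exists
    exact h4 h3
  · rintro ⟨Ω, m, μ, hμ, A, L, ⟨hA, hcls⟩, hL, hmap, hlim⟩
    constructor
    · rw [← hmap, Measure.map_apply hL measurableSet_Iio]
      have h1 : ∀ᵐ ω ∂μ, 0 ≤ L ω := by
        filter_upwards [hlim] with ω hω
        refine ge_of_tendsto hω ?_
        filter_upwards [hU.div.eventually_gt_atTop 0] with x hx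
        positivity
      rw [ae_iff] at h1
      exact measure_mono_null (fun ω hω => not_le.2 hω) h1
    · rw [← hmap, lintegral_map (by fun_prop) hL]
      exact J.upl U p δ hU hδ Ω μ A hA hcls L hL hlim
  · rintro ⟨h0, h1⟩
    obtain ⟨Ω, m, μ, hμ, A, L, hA, hL, hmap, hcls, hlim, -⟩ := J.low U p δ hU hδ ν h0 h1
    exact ⟨Ω, m, μ, hμ, A, L, ⟨hA, hcls⟩, hL, hmap, hlim⟩
  · intro Ω _ μ _ A hA
    simp only [finite_iff']
    exact J.fin U p δ hU hδ Ω μ A hA.1 hA.2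
  · obtain ⟨t, ht⟩ : ∃ t : ℝ, t = min 1 δ := ⟨_, rfl⟩
    have ht0 : 0 ≤ t := by
      rw [ht]
      exact le_min zero_le_one hδ
    have ht1 : t ≤ 1 := by
      rw [ht]
      exact min_le_left _ _
    have ht2 : t ≤ δ := by
      rw [ht]
      exact min_le_right _ _
    obtain ⟨ν, hν⟩ : ∃ ν : Measure ℝ, ν = ENNReal.ofReal t • Measure.dirac 0 + ENNReal.ofReal (1 - t) • Measure.dirac 1 := ⟨_, rfl⟩
    haveI : IsProbabilityMeasure ν := ⟨by
      rw [hν]
      simp only [Measure.coe_add, Measure.coe_smul, Pi.add_apply, Pi.smul_apply, measure_univ, smul_eq_mul, mul_one]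
      rw [← ENNReal.ofReal_add ht0 (by linarith)]
      simp⟩
    obtain ⟨Ω, m, μ, hμ, A, L, hA, hL, hmap, hcls, hlim, hfin⟩ := J.low U p δ hU hδ ν (by
      rw [hν]
      simp) (by
      rw [hν, lintegral_add_measure, lintegral_smul_measure, lintegral_smul_measure, lintegral_dirac, lintegral_dirac]
      have h1 : hfun 0 = 1 := by simp [hfun]
      have h2 : hfun 1 = 0 := by simp [hfun]
      rw [h1, h2]
      simp only [ENNReal.ofReal_one, ENNReal.ofReal_zero, smul_eq_mul, mul_one, mul_zero, add_zero]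
      exact ENNReal.ofReal_le_ofReal ht2)
    have hup : μ.real {ω | (A ω ∩ U).Finite} ≤ δ := by
      simp only [finite_iff']
      exact J.fin U p δ hU hδ Ω μ A hA hcls
    refine ⟨Ω, m, μ, hμ, A, ⟨hA, hcls⟩, le_antisymm (le_min measureReal_le_one hup) ?_⟩
    rw [← ht]
    have h1 : μ.real (L ⁻¹' {0}) = t := by
      rw [measureReal_def, ← Measure.map_apply hL (measurableSet_singleton 0), hmap, hν]
      simp [ht0]
    rw [← h1]
    refine ENNReal.toReal_mono (measure_ne_top _ _) (measure_mono_ae ?_)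
    filter_upwards [hfin] with ω hω h2
    exact (finite_iff' U (A ω)).2 (hω h2)

end Pool.Agent.Q120.ME
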