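import Pool.Agent.Q120.ME.Stm

/-!
# Project ME: assembly for the Mersenne exponents
-/

set_option autoImplicit false

namespace Pool.Agent.Q120.ME

open Finset MeasureTheory Filter Pool.Agent.Q120.ET
open scoped Topology

/-- The jobs. -/
structure MEJobs : Prop where
  asu : J_ASU
  asl : J_ASL
  upl : J_UPL
  low : J_LOW
  fin : J_FIN
  wag : J_WAG

/-- The constant `e ^ γ / log 2`. -/
noncomputable def cM : ℝ := Real.exp Real.eulerMascheroniConstant / Real.log 2

theorem cM_pos : 0 < cM := by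
  unfold cM
  have := Real.log_pos (show (1 : ℝ) < 2 by norm_num)
  positivity

/-- The number of the primes below `x` in `S`. -/
noncomputable def M (S : Set ℕ) (x : ℕ) : ℕ := cnt {n | n.Prime} S x

/-- The relative entropy (nats) of the law of the set of the primes below `x` in `A`, with respect to Wagstaff's model. -/
noncomputable def D {Ω : Type*} [MeasurableSpace Ω] (μ : Measure Ω) (A : Ω → Set ℕ) (x : ℕ) : ℝ := relEnt wag μ A (ind {n | n.Prime} x)

/-- The class `δ`: `D(x) ≤ (δ + o(1)) log x`. -/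
def Cls (δ : ℝ) {Ω : Type*} [MeasurableSpace Ω] (μ : Measure Ω) (A : Ω → Set ℕ) : Prop :=
  IsRandomSet A ∧ ∀ ε : ℝ, 0 < ε → ∀ᶠ x : ℕ in atTop, D μ A x ≤ (δ + ε) * Real.log x

theorem log_tendsto : Tendsto (fun x : ℕ => Real.log x) atTop atTop := Real.tendsto_log_atTop.comp tendsto_natCast_atTop_atTop

/-- `mass` and `log`. -/
theorem mass_bounds (J : MEJobs) {η : ℝ} (hη : 0 < η) : ∀ᶠ x : ℕ in atTop,
    (1 - η) * (cM * Real.log x) ≤ mass {n | n.Prime} wag x ∧ mass {n | n.Prime} wag x ≤ (1 + η) * (cM * Real.log x) := by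
  have h1 := J.wag.2
  rw [← cM] at h1
  have hc := cM_pos
  filter_upwards [h1.eventually (eventually_gt_nhds (show (1 - η) * cM < cM by nlinarith)),
    h1.eventually (eventually_lt_nhds (show cM < (1 + η) * cM by nlinarith)), log_tendsto.eventually_gt_atTop 0] with x h2 h3 h4
  rw [lt_div_iff₀ h4] at h2
  rw [div_lt_iff₀ h4] at h3
  constructor <;> nlinarith

/-- The limits with respect to `mass` and to `log`. -/
theorem tendsto_iff (J : MEJobs) (f : ℕ → ℝ) (l : ℝ) :
    Tendsto (fun x : ℕ => f x / mass {n | n.Prime} wag x) atTop (𝓝 l) ↔ Tendsto (fun x : ℕ => f x / Real.log x) atTop (𝓝 (cM * l)) := by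
  have h1 := J.wag.2
  rw [← cM] at h1
  have hc := cM_pos
  have h2 : ∀ᶠ x : ℕ in atTop, 0 < mass {n | n.Prime} wag x := J.wag.1.div.eventually_gt_atTop 0
  have h3 : ∀ᶠ x : ℕ in atTop, 0 < Real.log x := log_tendsto.eventually_gt_atTop 0
  constructor
  · intro h
    refine (h1.mul h).congr' ?_
    filter_upwards [h2, h3] with x h4 h5
    field_simp
  · intro h
    have h4 : Tendsto (fun x : ℕ => f x / Real.log x * (mass {n | n.Prime} wag x / Real.log x)⁻¹) atTop (𝓝 (cM * l * cM⁻¹)) :=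
      h.mul (h1.inv₀ hc.ne')
    rw [show cM * l * cM⁻¹ = l by field_simp] at h4
    refine h4.congr' ?_
    filter_upwards [h2, h3] with x h4 h5
    field_simp

/-- The classes with respect to `mass` and to `log`. -/
theorem cls_iff (J : MEJobs) {δ : ℝ} (hδ : 0 ≤ δ) {f : ℕ → ℝ} :
    (∀ ε : ℝ, 0 < ε → ∀ᶠ x : ℕ in atTop, f x ≤ (δ / cM + ε) * mass {n | n.Prime} wag x) ↔
      ∀ ε : ℝ, 0 < ε → ∀ᶠ x : ℕ in atTop, f x ≤ (δ + ε) * Real.log x := by
  have hc := cM_pos
  constructor
  · intro h ε hε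
    obtain ⟨ε', hε'⟩ : ∃ ε' : ℝ, ε' = ε / (2 * cM) := ⟨_, rfl⟩
    have h1 : 0 < ε' := by
      rw [hε']
      positivity
    obtain ⟨η, hη⟩ : ∃ η : ℝ, η = ε / (2 * (δ + ε)) := ⟨_, rfl⟩
    have hδε : 0 < δ + ε := by linarith
    have h2 : 0 < η := by
      rw [hη]
      positivity
    filter_upwards [h ε' h1, mass_bounds J h2, log_tendsto.eventually_gt_atTop 0] with x h3 h4 h5
    refine h3.trans ?_
    have h6 : 0 ≤ δ / cM + ε' := by positivity
    refine (mul_le_mul_of_nonneg_left h4.2 h6).trans ?_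
    have h7 : (δ / cM + ε') * ((1 + η) * (cM * Real.log x)) = ((δ + ε / 2) * (1 + η)) * Real.log x := by
      rw [hε']
      field_simp
    rw [h7]
    apply mul_le_mul_of_nonneg_right _ h5.le
    have h8 : (δ + ε / 2) * η ≤ ε / 2 := by
      rw [hη, mul_div_assoc', div_le_iff₀ (by positivity)]
      nlinarith
    linarith
  · intro h ε hε
    obtain ⟨ε', hε'⟩ : ∃ ε' : ℝ, ε' = ε * cM / 2 := ⟨_, rfl⟩
    have h1 : 0 < ε' := by
      rw [hε']
      positivity
    have hd : 0 < δ / cM + ε := by positivity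
    obtain ⟨η, hη⟩ : ∃ η : ℝ, η = ε / 2 / (δ / cM + ε) := ⟨_, rfl⟩
    have h2 : 0 < η := by
      rw [hη]
      positivity
    filter_upwards [h ε' h1, mass_bounds J h2, log_tendsto.eventually_gt_atTop 0] with x h3 h4 h5
    refine h3.trans ?_
    refine le_trans ?_ (mul_le_mul_of_nonneg_left h4.1 hd.le)
    have h7 : (δ / cM + ε) * ((1 - η) * (cM * Real.log x)) = ((δ / cM + ε) - (δ / cM + ε) * η) * cM * Real.log x := by ring
    rw [h7]
    apply mul_le_mul_of_nonneg_right _ h5.le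
    have h8 : (δ / cM + ε) * η = ε / 2 := by
      rw [hη]
      field_simp
    rw [h8, hε']
    have h9 : (δ / cM + ε - ε / 2) * cM = δ + ε * cM / 2 := by
      field_simp
      ring
    rw [h9]

/-- The conditions of convergence. -/
theorem conv_iff (J : MEJobs) {d : ℕ → ℝ} (hd : ∀ n, 0 ≤ d n) :
    Conv {n | n.Prime} wag d ↔ Summable (fun n : ℕ => if n.Prime then d n / (n * Real.log n) else 0) := by
  classical
  have hc := cM_pos
  have hmb := mass_bounds J (show (0 : ℝ) < 1 / 2 by norm_num)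
  have hw : ∀ᶠ n : ℕ in atTop, wag n = cM * Real.log n / n := by
    have h1 : Tendsto (fun n : ℕ => cM * (Real.log n / n)) atTop (𝓝 (cM * 0)) := by
      have h2 : Tendsto (fun x : ℝ => Real.log x / x) atTop (𝓝 0) := by
        have := Real.tendsto_pow_log_div_mul_add_atTop 1 0 1 one_ne_zero
        simpa using this
      exact (h2.comp tendsto_natCast_atTop_atTop).const_mul cM
    rw [mul_zero] at h1
    filter_upwards [h1.eventually (eventually_lt_nhds (show (0 : ℝ) < 1 / 2 by norm_num))] with n hn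
    unfold wag
    rw [← cM, min_eq_right]
    · rw [mul_div_assoc]
      exact hn.le
  unfold Conv
  have key : ∀ᶠ n : ℕ in atTop, wag n * d n / mass {n | n.Prime} wag n ^ 2 ≤ 4 / cM * (d n / (n * Real.log n)) ∧
      d n / (n * Real.log n) ≤ 9 * cM / 4 * (wag n * d n / mass {n | n.Prime} wag n ^ 2) := by
    filter_upwards [hmb, hw, log_tendsto.eventually_gt_atTop 0, eventually_gt_atTop 0] with n h1 h2 h3 h4
    have hn : (0 : ℝ) < n := by exact_mod_cast h4
    have hm : 0 < mass {n | n.Prime} wag n := by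
      have : 0 < cM * Real.log n := by positivity
      nlinarith [h1.1]
    have h5 := hd n
    rw [h2]
    have h6 : (1 / 2 * (cM * Real.log n)) ^ 2 ≤ mass {n | n.Prime} wag n ^ 2 := by
      apply pow_le_pow_left₀ (by positivity)
      linarith [h1.1]
    have h7 : mass {n | n.Prime} wag n ^ 2 ≤ (3 / 2 * (cM * Real.log n)) ^ 2 := by
      apply pow_le_pow_left₀ hm.le
      linarith [h1.2]
    constructor
    · calc cM * Real.log n / n * d n / mass {n | n.Prime} wag n ^ 2
          ≤ cM * Real.log n / n * d n / (1 / 2 * (cM * Real.log n)) ^ 2 :=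
            div_le_div_of_nonneg_left (by positivity) (by positivity) h6
        _ = 4 / cM * (d n / (n * Real.log n)) := by
            field_simp
            ring
    · calc d n / (n * Real.log n) = 9 * cM / 4 * (cM * Real.log n / n * d n / (3 / 2 * (cM * Real.log n)) ^ 2) := by
            field_simp
            ring
        _ ≤ 9 * cM / 4 * (cM * Real.log n / n * d n / mass {n | n.Prime} wag n ^ 2) := by
            apply mul_le_mul_of_nonneg_left _ (by positivity)
            exact div_le_div_of_nonneg_left (by positivity) (by positivity) h7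
  constructor
  · intro h
    refine Summable.of_norm_bounded_eventually_nat (h.mul_left (9 * cM / 4)) ?_
    filter_upwards [key, log_tendsto.eventually_gt_atTop 0] with n h1 h2
    by_cases hp : n.Prime
    · have h3 := hd n
      rw [if_pos hp, if_pos hp, Real.norm_eq_abs, abs_of_nonneg (by positivity)]
      exact h1.2
    · rw [if_neg hp, if_neg hp, norm_zero, mul_zero]
  · intro h
    refine Summable.of_norm_bounded_eventually_nat (h.mul_left (4 / cM)) ?_
    filter_upwards [key, log_tendsto.eventually_gt_atTop 0] with n h1 h2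
    by_cases hp : n.Prime
    · have h3 := J.wag.1.pos n hp
      have h4 := hd n
      rw [if_pos hp, if_pos hp, Real.norm_eq_abs, abs_of_nonneg (by positivity)]
      exact h1.1
    · rw [if_neg hp, if_neg hp, norm_zero, mul_zero]

/-- **(1)** -/
theorem law_iff (J : MEJobs) {d : ℕ → ℝ} (hm : Monotone d) (hd : ∀ n, 0 ≤ d n) :
    (∀ (Ω : Type) [MeasurableSpace Ω] (μ : Measure Ω) [IsProbabilityMeasure μ] (A : Ω → Set ℕ), IsRandomSet A →
      (∀ᶠ x : ℕ in atTop, D μ A x ≤ d x) → ∀ᵐ ω ∂μ, Tendsto (fun x : ℕ => (M (A ω) x : ℝ) / Real.log x) atTop (𝓝 cM)) ↔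
    Summable (fun n : ℕ => if n.Prime then d n / (n * Real.log n) else 0) := by
  rw [← conv_iff J hd]
  constructor
  · intro h
    by_contra hns
    obtain ⟨Ω, m, μ, hμ, A, hA, h1, h2⟩ := J.asl {n | n.Prime} wag d J.wag.1 hm hd hns
    obtain ⟨ω, h3, h4⟩ := ((h Ω μ A hA h1).and h2).exists
    apply h4
    rw [tendsto_iff J, mul_one]
    exact h3
  · intro h Ω _ μ _ A hA hD
    filter_upwards [J.asu {n | n.Prime} wag d J.wag.1 hm hd h Ω μ A hA hD] with ω hω
    have h1 := (tendsto_iff J _ _).1 hω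
    rwa [mul_one] at h1

theorem scale (u : ℝ) : u * Real.log (u / cM) - u + cM = cM * hfun (u / cM) := by
  unfold hfun
  have := cM_pos
  field_simp

theorem lint_scale (ν : Measure ℝ) (δ : ℝ) (hδ : 0 ≤ δ) :
    ∫⁻ u, ENNReal.ofReal (u * Real.log (u / cM) - u + cM) ∂ν ≤ ENNReal.ofReal δ ↔
      ∫⁻ u, ENNReal.ofReal (hfun u) ∂(ν.map (fun u => u / cM)) ≤ ENNReal.ofReal (δ / cM) := by
  have hc := cM_pos
  have hmeas : Measurable (fun u : ℝ => ENNReal.ofReal (hfun u)) := by
    unfold hfun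
    fun_prop
  rw [lintegral_map hmeas (by fun_prop)]
  have h1 : (fun u : ℝ => ENNReal.ofReal (u * Real.log (u / cM) - u + cM)) =
      fun u => ENNReal.ofReal cM * ENNReal.ofReal (hfun (u / cM)) := by
    funext u
    rw [scale, ENNReal.ofReal_mul hc.le]
  have hmeas2 : Measurable (fun u : ℝ => ENNReal.ofReal (hfun (u / cM))) := hmeas.comp (measurable_id.div_const cM)
  rw [h1, lintegral_const_mul _ hmeas2, ENNReal.ofReal_div_of_pos hc,
    ENNReal.le_div_iff_mul_le (Or.inl (by simpa using hc)) (Or.inl ENNReal.ofReal_ne_top), mul_comm]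

/-- **(2)** -/
theorem laws_iff (J : MEJobs) {δ : ℝ} (hδ : 0 ≤ δ) (ν : Measure ℝ) [IsProbabilityMeasure ν] :
    (∃ (Ω : Type) (_ : MeasurableSpace Ω) (μ : Measure Ω) (_ : IsProbabilityMeasure μ) (A : Ω → Set ℕ) (L : Ω → ℝ), Cls δ μ A ∧
      Measurable L ∧ μ.map L = ν ∧ ∀ᵐ ω ∂μ, Tendsto (fun x : ℕ => (M (A ω) x : ℝ) / Real.log x) atTop (𝓝 (L ω))) ↔
    ν (Set.Iio 0) = 0 ∧ ∫⁻ u, ENNReal.ofReal (u * Real.log (u / cM) - u + cM) ∂ν ≤ ENNReal.ofReal δ := by
  have hc := cM_pos
  constructor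
  · rintro ⟨Ω, m, μ, hμ, A, L, ⟨hA, hcls⟩, hL, hmap, hlim⟩
    constructor
    · rw [← hmap, Measure.map_apply hL measurableSet_Iio]
      have h1 : ∀ᵐ ω ∂μ, 0 ≤ L ω := by
        filter_upwards [hlim] with ω hω
        refine ge_of_tendsto hω ?_
        filter_upwards [log_tendsto.eventually_gt_atTop 0] with x hx
        positivity
      rw [ae_iff] at h1
      exact measure_mono_null (fun ω hω => not_le.2 hω) h1
    · rw [lint_scale ν δ hδ, ← hmap, Measure.map_map (by fun_prop) hL]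
      have h1 := J.upl {n | n.Prime} wag (δ / cM) J.wag.1 (by positivity) Ω μ A hA ((cls_iff J hδ).2 hcls) (fun ω => L ω / cM)
        (hL.div_const _) (by
          filter_upwards [hlim] with ω hω
          rw [tendsto_iff J, mul_div_cancel₀ _ hc.ne']
          exact hω)
      rw [lintegral_map (by
        unfold hfun
        fun_prop) (by fun_prop)]
      exact h1
  · rintro ⟨h0, h1⟩
    rw [lint_scale ν δ hδ] at h1
    haveI : IsProbabilityMeasure (ν.map (fun u => u / cM)) := Measure.isProbabilityMeasure_map (by fun_prop)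
    obtain ⟨Ω, m, μ, hμ, A, L, hA, hL, hmap, hcls, hlim, -⟩ := J.low {n | n.Prime} wag (δ / cM) J.wag.1 (by positivity)
      (ν.map (fun u => u / cM)) (by
        rw [Measure.map_apply (by fun_prop) measurableSet_Iio]
        refine measure_mono_null (fun u hu => ?_) h0
        have h2 : u / cM < 0 := hu
        rw [div_lt_iff₀ hc, zero_mul] at h2
        exact h2) h1
    refine ⟨Ω, m, μ, hμ, A, fun ω => cM * L ω, ⟨hA, (cls_iff J hδ).1 hcls⟩, hL.const_mul _, ?_, ?_⟩
    · have h2 : μ.map (fun ω => cM * L ω) = (μ.map L).map (fun v => cM * v) := (Measure.map_map (by fun_prop) hL).symm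
      rw [h2, hmap, Measure.map_map (by fun_prop) (by fun_prop)]
      have h3 : (fun v => cM * v) ∘ (fun u => u / cM) = id := by
        funext u
        simp only [Function.comp, id]
        field_simp
      rw [h3, Measure.map_id]
    · filter_upwards [hlim] with ω hω
      exact (tendsto_iff J _ _).1 hω

theorem finite_iff (S : Set ℕ) : (S ∩ {n | n.Prime}).Finite ↔ ∃ N : ℕ, ∀ n ∈ S, n ∈ {n : ℕ | n.Prime} → n < N := by
  constructor
  · intro h
    obtain ⟨N, hN⟩ := h.bddAbove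
    exact ⟨N + 1, fun n h1 h2 => Nat.lt_succ_of_le (hN ⟨h1, h2⟩)⟩
  · rintro ⟨N, hN⟩
    exact (Set.finite_lt_nat N).subset (fun n hn => hN n hn.1 hn.2)

/-- **(3)** -/
theorem fin_max (J : MEJobs) {δ : ℝ} (hδ : 0 ≤ δ) :
    (∀ (Ω : Type) [MeasurableSpace Ω] (μ : Measure Ω) [IsProbabilityMeasure μ] (A : Ω → Set ℕ), Cls δ μ A →
      μ.real {ω | (A ω ∩ {n | n.Prime}).Finite} ≤ δ / cM) ∧
    ∃ (Ω : Type) (_ : MeasurableSpace Ω) (μ : Measure Ω) (_ : IsProbabilityMeasure μ) (A : Ω → Set ℕ), Cls δ μ A ∧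
      μ.real {ω | (A ω ∩ {n | n.Prime}).Finite} = min 1 (δ / cM) := by
  have hc := cM_pos
  have hup : ∀ (Ω : Type) [MeasurableSpace Ω] (μ : Measure Ω) [IsProbabilityMeasure μ] (A : Ω → Set ℕ), Cls δ μ A →
      μ.real {ω | (A ω ∩ {n | n.Prime}).Finite} ≤ δ / cM := by
    intro Ω _ μ _ A hA
    simp only [finite_iff]
    exact J.fin {n | n.Prime} wag (δ / cM) J.wag.1 (by positivity) Ω μ A hA.1 ((cls_iff J hδ).2 hA.2)
  refine ⟨hup, ?_⟩
  obtain ⟨t, ht⟩ : ∃ t : ℝ, t = min 1 (δ / cM) := ⟨_, rfl⟩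
  have ht0 : 0 ≤ t := by
    rw [ht]
    exact le_min zero_le_one (by positivity)
  have ht1 : t ≤ 1 := by
    rw [ht]
    exact min_le_left _ _
  have ht2 : t ≤ δ / cM := by
    rw [ht]
    exact min_le_right _ _
  obtain ⟨ν, hν⟩ : ∃ ν : Measure ℝ, ν = ENNReal.ofReal t • Measure.dirac 0 + ENNReal.ofReal (1 - t) • Measure.dirac 1 := ⟨_, rfl⟩
  haveI : IsProbabilityMeasure ν := ⟨by
    rw [hν]
    simp only [Measure.coe_add, Measure.coe_smul, Pi.add_apply, Pi.smul_apply, measure_univ, smul_eq_mul, mul_one]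
    rw [← ENNReal.ofReal_add ht0 (by linarith)]
    simp⟩
  obtain ⟨Ω, m, μ, hμ, A, L, hA, hL, hmap, hcls, hlim, hfin⟩ := J.low {n | n.Prime} wag (δ / cM) J.wag.1 (by positivity) ν (by
    rw [hν]
    simp) (by
    rw [hν, lintegral_add_measure, lintegral_smul_measure, lintegral_smul_measure, lintegral_dirac, lintegral_dirac]
    have h1 : hfun 0 = 1 := by simp [hfun]
    have h2 : hfun 1 = 0 := by simp [hfun]
    rw [h1, h2]
    simp only [ENNReal.ofReal_one, ENNReal.ofReal_zero, smul_eq_mul, mul_one, mul_zero, add_zero]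
    exact ENNReal.ofReal_le_ofReal ht2)
  have hAc : Cls δ μ A := ⟨hA, (cls_iff J hδ).1 hcls⟩
  refine ⟨Ω, m, μ, hμ, A, hAc, le_antisymm (le_min ?_ (hup Ω μ A hAc)) ?_⟩
  · exact measureReal_le_one
  · rw [← ht]
    have h1 : μ.real (L ⁻¹' {0}) = t := by
      rw [measureReal_def, ← Measure.map_apply hL (measurableSet_singleton 0), hmap, hν]
      simp [ht0]
    rw [← h1]
    refine ENNReal.toReal_mono (measure_ne_top _ _) (measure_mono_ae ?_)
    filter_upwards [hfin] with ω hω h2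
    exact (finite_iff (A ω)).2 (hω h2)

/-- **The theorem of the project.** -/
theorem main (J : MEJobs) :
    (∀ d : ℕ → ℝ, Monotone d → (∀ n, 0 ≤ d n) →
      ((∀ (Ω : Type) [MeasurableSpace Ω] (μ : Measure Ω) [IsProbabilityMeasure μ] (A : Ω → Set ℕ), IsRandomSet A →
        (∀ᶠ x : ℕ in atTop, D μ A x ≤ d x) → ∀ᵐ ω ∂μ, Tendsto (fun x : ℕ => (M (A ω) x : ℝ) / Real.log x) atTop (𝓝 cM)) ↔
      Summable (fun n : ℕ => if n.Prime then d n / (n * Real.log n) else 0))) ∧
    ∀ δ : ℝ, 0 ≤ δ →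
      (∀ ν : Measure ℝ, IsProbabilityMeasure ν →
        ((∃ (Ω : Type) (_ : MeasurableSpace Ω) (μ : Measure Ω) (_ : IsProbabilityMeasure μ) (A : Ω → Set ℕ) (L : Ω → ℝ), Cls δ μ A ∧
          Measurable L ∧ μ.map L = ν ∧ ∀ᵐ ω ∂μ, Tendsto (fun x : ℕ => (M (A ω) x : ℝ) / Real.log x) atTop (𝓝 (L ω))) ↔
        ν (Set.Iio 0) = 0 ∧ ∫⁻ u, ENNReal.ofReal (u * Real.log (u / cM) - u + cM) ∂ν ≤ ENNReal.ofReal δ)) ∧
      (∀ (Ω : Type) [MeasurableSpace Ω] (μ : Measure Ω) [IsProbabilityMeasure μ] (A : Ω → Set ℕ), Cls δ μ A →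
        μ.real {ω | (A ω ∩ {n | n.Prime}).Finite} ≤ δ / cM) ∧
      ∃ (Ω : Type) (_ : MeasurableSpace Ω) (μ : Measure Ω) (_ : IsProbabilityMeasure μ) (A : Ω → Set ℕ), Cls δ μ A ∧
        μ.real {ω | (A ω ∩ {n | n.Prime}).Finite} = min 1 (δ / cM) :=
  ⟨fun _ hm hd => law_iff J hm hd, fun _ hδ => ⟨fun ν _ => laws_iff J hδ ν, (fin_max J hδ).1, (fin_max J hδ).2⟩⟩

end Pool.Agent.Q120.ME
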