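import Pool.Agent.Q120.ET.Law

/-!
# Project ME: the number of Mersenne exponents, for ALL random sets of primes near Wagstaff's model

General setting: `U` a set of integers, `0 < p n < 1` for `n ∈ U`, `p n → 0`, `∑ p n = ∞`; the model contains each `n ∈ U` independently with
probability `p n`; `mass U p x = ∑_{n ∈ U, n < x} p n` and `cnt U S x = #{n ∈ S ∩ U : n < x}`. For ANY random set `A` let
`D(x) = relEnt p μ A (ind U x)` be the relative entropy (nats) of the law of `A ∩ U ∩ [0, x)` with respect to the model. Results of the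
project, assembled from the jobs, applied to the primes `U` and `p n = min (1 / 2) (e ^ γ log n / (n log 2))` (the expected density of Mersenne
exponents, `mass ~ (e ^ γ / log 2) log x`):
(1) for nondecreasing `d ≥ 0`: `cnt ~ mass` almost surely for ALL `A` with `D(x) ≤ d x` iff `∑_{n ∈ U} p n * d n / mass n ^ 2 < ∞`
(for the primes: `∑_p d p / (p log p) < ∞`);
(2) class `δ`: `D(x) ≤ (δ + o(1)) mass x`. A probability measure `ν` on `[0, ∞)` is the law of `lim cnt / mass` for some `A` of class `δ` iff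
`∫ (u log u - u + 1) dν(u) ≤ δ`; the probability that `A ∩ U` is finite is at most `δ` for all `A` of class `δ` and equal to `min 1 δ` for some.

Each job is a definition `J_… : Prop`; a theorem `t_… : J_…` (with the named jobs as hypotheses) is to be proved. The proofs are complete in
the docstrings. Tools: `ET.Law` (`real_event`, `sum_law`, `measurableSet_law`, `tr`, `mem_tr`, `law_set_eq`), `ET.Basic` (`young`).
-/

set_option autoImplicit false

namespace Pool.Agent.Q120.ME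

open Finset MeasureTheory Filter Pool.Agent.Q120.ET
open scoped Topology

open Classical in
/-- The elements of `U` below `x`. -/
noncomputable def ind (U : Set ℕ) (x : ℕ) : Finset ℕ := (range x).filter (fun n => n ∈ U)

open Classical in
/-- The number of the elements of `S ∩ U` below `x`. -/
noncomputable def cnt (U S : Set ℕ) (x : ℕ) : ℕ := ((ind U x).filter (fun n => n ∈ S)).card

/-- The expected number in the model. -/
noncomputable def mass (U : Set ℕ) (p : ℕ → ℝ) (x : ℕ) : ℝ := ∑ n ∈ ind U x, p n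

/-- The law of the model on `F`: each `n ∈ F` belongs to `T` independently with probability `p n`. -/
noncomputable def bern (p : ℕ → ℝ) (F T : Finset ℕ) : ℝ := ∏ n ∈ F, if n ∈ T then p n else 1 - p n

/-- The relative entropy of the law of `A ∩ F` with respect to the model. -/
noncomputable def relEnt (p : ℕ → ℝ) {Ω : Type*} [MeasurableSpace Ω] (μ : Measure Ω) (A : Ω → Set ℕ) (F : Finset ℕ) : ℝ :=
  ∑ T ∈ F.powerset, lawOn μ A F T * Real.log (lawOn μ A F T / bern p F T)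

/-- The model: `0 < p n < 1` on `U`, `p n → 0`, `∑ p n = ∞`. -/
structure Rates (U : Set ℕ) (p : ℕ → ℝ) : Prop where
  pos : ∀ n ∈ U, 0 < p n
  lt_one : ∀ n ∈ U, p n < 1
  small : ∀ ε : ℝ, 0 < ε → ∀ᶠ n : ℕ in atTop, n ∈ U → p n < ε
  div : Tendsto (mass U p) atTop atTop

/-- The rate function of the Poisson law. -/
noncomputable def hfun (u : ℝ) : ℝ := u * Real.log u - u + 1

/-- The relative entropy of Bernoulli laws. -/
noncomputable def kl (a b : ℝ) : ℝ := a * Real.log (a / b) + (1 - a) * Real.log ((1 - a) / (1 - b))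

/-- **Job DV.** The variational inequality.
Proof. `q T = bern p F T > 0` for `T ⊆ F`, `P T = lawOn μ A F T ≥ 0` with sum `1` (`sum_law`). Put `Z = ∑ q T exp (G T) > 0`. For each `T`
`P T * G T ≤ P T * log (P T / q T) + P T * log Z + (q T * exp (G T) / Z - P T)`: this is `log (y / P) ≤ y / P - 1` with
`y = q T exp (G T) / Z` if `P T > 0`, clear if `P T = 0`. Sum over `T`: the last terms sum to `0`. -/
def J_DV : Prop := ∀ (p : ℕ → ℝ) (F : Finset ℕ), (∀ n ∈ F, 0 < p n ∧ p n < 1) → ∀ (Ω : Type) [MeasurableSpace Ω] (μ : Measure Ω)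
  [IsProbabilityMeasure μ] (A : Ω → Set ℕ), IsRandomSet A → ∀ G : Finset ℕ → ℝ,
    ∑ T ∈ F.powerset, lawOn μ A F T * G T ≤ relEnt p μ A F + Real.log (∑ T ∈ F.powerset, bern p F T * Real.exp (G T))

/-- **Job EVT** (uses DV). The probabilities of unlikely events, and `relEnt ≥ 0`.
Proof. `∑ bern = 1` (`Finset.prod_add` or induction). DV with `G = K * 1_E`: `K P(E) ≤ D + log (1 - Q(E) + Q(E) e ^ K) ≤ D + log 2`;
DV with `G = 0`: `0 ≤ D`. The set `{ω | E (tr A F ω)}` has the measure `∑ T ∈ F.powerset with E T, lawOn μ A F T` (`real_event`). -/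
def J_EVT : Prop := ∀ (p : ℕ → ℝ) (F : Finset ℕ), (∀ n ∈ F, 0 < p n ∧ p n < 1) → ∀ (Ω : Type) [MeasurableSpace Ω] (μ : Measure Ω)
  [IsProbabilityMeasure μ] (A : Ω → Set ℕ), IsRandomSet A → 0 ≤ relEnt p μ A F ∧
    ∀ (E : Finset ℕ → Prop) [DecidablePred E] (K : ℝ), ∑ T ∈ F.powerset with E T, bern p F T ≤ Real.exp (-K) →
      μ.real {ω | E (tr A F ω)} * K ≤ relEnt p μ A F + Real.log 2

/-- **Job GEN.** The generating function.
Proof. `∑ T bern p F T * exp (θ |T|) = ∏ n ∈ F, (1 - p n + p n * exp θ)` (`Finset.prod_add`, or induction on `F`), and `1 + y ≤ exp y`. -/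
def J_GEN : Prop := ∀ (p : ℕ → ℝ) (F : Finset ℕ), (∀ n ∈ F, 0 ≤ p n ∧ p n ≤ 1) → ∀ θ : ℝ,
  ∑ T ∈ F.powerset, bern p F T * Real.exp (θ * T.card) ≤ Real.exp ((Real.exp θ - 1) * ∑ n ∈ F, p n)

/-- **Job CHE** (uses GEN). Chernoff's bound.
Proof. With `m = ∑ p`: `∑_{|T| ≥ (1 + ε) m} bern ≤ exp (-θ (1 + ε) m + (e ^ θ - 1) m)` with `θ = log (1 + ε)`, exponent `-hfun (1 + ε) m`; for `ε < 1`
`∑_{|T| ≤ (1 - ε) m} bern ≤ exp (-hfun (1 - ε) m)` with `θ = log (1 - ε)`; for `ε ≥ 1` use `ε = 1 / 2` for the lower part (monotone).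
`hfun u > 0` for `u > 0`, `u ≠ 1` (`Real.log_lt_sub_one_of_pos`). -/
def J_CHE : Prop := ∀ ε : ℝ, 0 < ε → ∃ c : ℝ, 0 < c ∧ ∀ (p : ℕ → ℝ) (F : Finset ℕ), (∀ n ∈ F, 0 ≤ p n ∧ p n ≤ 1) →
  ∑ T ∈ F.powerset with ε * ∑ n ∈ F, p n < |(T.card : ℝ) - ∑ n ∈ F, p n|, bern p F T ≤ 2 * Real.exp (-(c * ∑ n ∈ F, p n))

open Classical in
/-- The condition of the almost sure law. -/
def Conv (U : Set ℕ) (p : ℕ → ℝ) (d : ℕ → ℝ) : Prop := Summable (fun n : ℕ => if n ∈ U then p n * d n / mass U p n ^ 2 else 0)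

/-- **Job ASU** (uses EVT, CHE). The almost sure law.
Proof. Let `m = mass U p` (nondecreasing, steps `< 1`, `→ ∞`), `0 < ε < 1`, `r = 1 + ε`, `y j` the least `x` with `r ^ j ≤ m x`, so
`r ^ j ≤ m (y j) ≤ r ^ j + 1`. EVT with `K = c m (y j) - log 2` and CHE: the probability that `|cnt (A ω) (y j) - m (y j)| > ε m (y j)` is at most
`(d (y j) + log 2) / (c r ^ j - log 2)` for large `j` (`cnt U (A ω) x = (tr A (ind U x) ω).card`). It is summable: `∑_j r ^ (-j)` converges, and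
`∑_{n ∈ U, y j ≤ n < y (j + 1)} p n d n / m n ^ 2 ≥ d (y j) (r ^ (j + 1) - r ^ j - 1) / (r ^ (j + 1) + 1) ^ 2 ≥ c' d (y j) / r ^ j` for large `j`
(disjoint ranges of `n`). By the first Borel-Cantelli lemma almost surely `|cnt (y j) - m (y j)| ≤ ε m (y j)` for all large `j`; for
`y j ≤ x ≤ y (j + 1)` monotonicity gives `cnt x / m x ≤ (1 + ε) (r ^ (j + 1) + 1) / r ^ j` and `≥ (1 - ε) r ^ j / (r ^ (j + 1) + 1)`. Let
`ε = 1 / (i + 2)`, `i → ∞`. -/
def J_ASU : Prop := ∀ (U : Set ℕ) (p d : ℕ → ℝ), Rates U p → Monotone d → (∀ n, 0 ≤ d n) → Conv U p d →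
  ∀ (Ω : Type) [MeasurableSpace Ω] (μ : Measure Ω) [IsProbabilityMeasure μ] (A : Ω → Set ℕ), IsRandomSet A →
    (∀ᶠ x : ℕ in atTop, relEnt p μ A (ind U x) ≤ d x) →
    ∀ᵐ ω ∂μ, Tendsto (fun x : ℕ => (cnt U (A ω) x : ℝ) / mass U p x) atTop (𝓝 1)

/-- **Job UPL** (uses DV, GEN). The laws of the limit: upper bound for the rate.
Proof. Let `m = mass U p`, `θ i = log (i)`-like: any sequence of reals whose set is dense, with `θ 0 = 0`, and `φ r a = max_{i ≤ r} (θ i a - (exp (θ i) - 1))`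
(`Finset.sup'`), so `φ r ≥ 0`, continuous, nondecreasing in `r`. DV with `F = ind U x`, `G T = m x * φ r (|T| / m x)`: by GEN
`∑ bern exp G ≤ ∑_{i ≤ r} exp (-(exp (θ i) - 1) m x) * exp ((exp (θ i) - 1) m x) = r + 1`. So
`E φ r (cnt / m x) ≤ (D(x) + log (r + 1)) / m x ≤ δ + ε + o(1)`; by Fatou's lemma (`φ r ≥ 0`, continuous) `E φ r (L) ≤ δ`, and by monotone
convergence `E sup_r φ r (L) ≤ δ`. Finally `sup_r φ r (a) = hfun a` for `a ≥ 0` (for `a > 0` the function `θ ↦ θ a - e ^ θ + 1` is continuous with value `hfun a` at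
`θ = log a`; for `a = 0` its supremum is `1 = hfun 0`); only `≥` is needed. `L ≥ 0` almost surely as a limit of nonnegative numbers. -/
def J_UPL : Prop := ∀ (U : Set ℕ) (p : ℕ → ℝ) (δ : ℝ), Rates U p → 0 ≤ δ →
  ∀ (Ω : Type) [MeasurableSpace Ω] (μ : Measure Ω) [IsProbabilityMeasure μ] (A : Ω → Set ℕ), IsRandomSet A →
    (∀ ε : ℝ, 0 < ε → ∀ᶠ x : ℕ in atTop, relEnt p μ A (ind U x) ≤ (δ + ε) * mass U p x) →
    ∀ L : Ω → ℝ, Measurable L → (∀ᵐ ω ∂μ, Tendsto (fun x : ℕ => (cnt U (A ω) x : ℝ) / mass U p x) atTop (𝓝 (L ω))) →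
      ∫⁻ ω, ENNReal.ofReal (hfun (L ω)) ∂μ ≤ ENNReal.ofReal δ

/-- **Job FIN** (uses EVT). The probability of finiteness.
Proof. `E_N = {ω | A ω ∩ U ⊆ [0, N)}` increases to the event. For `x > N`: `E_N ⊆ {tr A (ind U x) ω ∩ Ico N x = ∅}`, of probability
`∏_{n ∈ U, N ≤ n < x} (1 - p n) ≤ exp (-K)`, `K = mass x - mass N`, in the model (a marginal of `bern`; the sum of `bern` over the `T` disjoint from
`W ⊆ F` is `∏_{W} (1 - p)`, by `Finset.prod_add` or induction). EVT: `μ(E_N) (mass x - mass N) ≤ (δ + ε) mass x + log 2`; divide by `mass x`, `x → ∞`, `ε → 0`: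
`μ(E_N) ≤ δ`; continuity from below. -/
def J_FIN : Prop := ∀ (U : Set ℕ) (p : ℕ → ℝ) (δ : ℝ), Rates U p → 0 ≤ δ →
  ∀ (Ω : Type) [MeasurableSpace Ω] (μ : Measure Ω) [IsProbabilityMeasure μ] (A : Ω → Set ℕ), IsRandomSet A →
    (∀ ε : ℝ, 0 < ε → ∀ᶠ x : ℕ in atTop, relEnt p μ A (ind U x) ≤ (δ + ε) * mass U p x) →
    μ.real {ω | ∃ N : ℕ, ∀ n ∈ A ω, n ∈ U → n < N} ≤ δ

/-- The random set `A` contains each `n` with probability `r (π ω) n`, independently given `π`, and `π` has the law `ν`. -/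
structure Mixed {X : Type} [MeasurableSpace X] (ν : Measure X) (r : X → ℕ → ℝ) {Ω : Type} [MeasurableSpace Ω] (μ : Measure Ω)
    (A : Ω → Set ℕ) (π : Ω → X) : Prop where
  meas : Measurable π
  map : μ.map π = ν
  rand : IsRandomSet A
  law : ∀ (F T : Finset ℕ) (B : Set X), MeasurableSet B →
    μ.real ({ω | ∀ n ∈ F, (n ∈ A ω ↔ n ∈ T)} ∩ π ⁻¹' B) = ∫ x in B, bern (r x) F T ∂ν

/-- **Job CON.** The construction.
Proof. `Ω = X × (ℕ → ℝ)`, `μ = ν.prod (Measure.infinitePi (fun _ => volume.restrict (Icc 0 1)))` (or the uniform law on `[0, 1]` as used in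
`Pool.Agent.Q120.GM.Exists`, to be looked at for the independence), `A (x, u) = {n | u n < r x n}`, `π = Prod.fst`. `{n ∈ A}` is measurable since
`r · n` is. By Fubini the measure of `{∀ n ∈ F, (n ∈ A ↔ n ∈ T)} ∩ π ⁻¹' B` is the integral over `x ∈ B` of the measure of
`{u | ∀ n ∈ F, (u n < r x n ↔ n ∈ T)}`, a cylinder (`Measure.infinitePi_pi` or `infinitePi_cylinder`) of measure `bern (r x) F T`. -/
def J_CON : Prop := ∀ (X : Type) [MeasurableSpace X] (ν : Measure X) [IsProbabilityMeasure ν] (r : X → ℕ → ℝ),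
  (∀ n, Measurable (fun x => r x n)) → (∀ x n, 0 ≤ r x n ∧ r x n ≤ 1) →
  ∃ (Ω : Type) (_ : MeasurableSpace Ω) (μ : Measure Ω) (_ : IsProbabilityMeasure μ) (A : Ω → Set ℕ) (π : Ω → X), Mixed ν r μ A π

/-- **Job ENM.** The relative entropy of a mixture.
Proof. `law` with `B = univ`: `lawOn μ A F T = ∫ bern (r x) F T ∂ν`. For each `T ⊆ F` Jensen's inequality for the convex continuous function
`t ↦ t log (t / q)` on `[0, ∞)`, `q = bern p F T > 0` (`ConvexOn.map_integral_le`; all functions are bounded and measurable):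
`lawOn * log (lawOn / q) ≤ ∫ bern (r x) F T * log (bern (r x) F T / q) ∂ν`. Sum over `T` and use, for each `x`,
`∑ T ∈ F.powerset, bern a F T * log (bern a F T / bern p F T) = ∑ n ∈ F, kl (a n) (p n)` for `0 ≤ a n ≤ 1` (induction on `F`: `bern` factorises;
terms with `bern a F T = 0` vanish). -/
def J_ENM : Prop := ∀ (X : Type) [MeasurableSpace X] (ν : Measure X) [IsProbabilityMeasure ν] (r : X → ℕ → ℝ),
  (∀ n, Measurable (fun x => r x n)) → (∀ x n, 0 ≤ r x n ∧ r x n ≤ 1) →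
  ∀ (Ω : Type) [MeasurableSpace Ω] (μ : Measure Ω) [IsProbabilityMeasure μ] (A : Ω → Set ℕ) (π : Ω → X), Mixed ν r μ A π →
  ∀ (p : ℕ → ℝ) (F : Finset ℕ), (∀ n ∈ F, 0 < p n ∧ p n < 1) →
    Integrable (fun x => ∑ n ∈ F, kl (r x n) (p n)) ν ∧ relEnt p μ A F ≤ ∫ x, ∑ n ∈ F, kl (r x n) (p n) ∂ν

/-- **Job KLB.** A bound for the relative entropy of Bernoulli laws.
Proof. `v = u q`. `(1 - v) log (1 - v) ≤ -v + v ^ 2` (`log (1 - v) ≤ -v`), `-(1 - v) log (1 - q) ≤ (1 - v) (q + q ^ 2)` for `q ≤ 1 / 2`, and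
`v log (v / q) = u q log u`. Sum: `u q log u - v + v ^ 2 + q + q ^ 2 = q hfun u + (u ^ 2 + 1) q ^ 2` at most. -/
def J_KLB : Prop := ∀ u q : ℝ, 0 ≤ u → 0 < q → q ≤ 1 / 2 → u * q ≤ 1 → kl (u * q) q ≤ q * hfun u + (u ^ 2 + 1) * q ^ 2

/-- **Job SLL.** The strong law in mixtures.
Proof. Let `R x N = ∑ n ∈ ind U N, r x n`, `B_K = {x | ∀ N, R x N ≤ K (Λ N + 1)}` (measurable; `ν (⋃ B_K) = 1` as `R x N / Λ N` converges and
`Λ N > 0` for large `N`). From `law` (with `F = {n}`, `{n, n'}` and subsets of `B_K`, or by approximation with the product law: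
conditionally on `π` the events `n ∈ A` are independent of probabilities `r x n`)
`∫_{π ∈ B_K} (cnt U (A ω) N - R (π ω) N) ^ 2 dμ = ∫_{B_K} ∑ r (1 - r) dν ≤ K (Λ N + 1)`. Scales `y j` = the least `N` with
`j ^ 2 ≤ Λ N` (so `j ^ 2 ≤ Λ (y j) ≤ j ^ 2 + C`): by Chebyshev's inequality and the first Borel-Cantelli lemma `(cnt - R) / Λ → 0` along `y j` almost surely on
`π ∈ B_K`, so `cnt (y j) / Λ (y j) → u (π ω)`; `cnt` is nondecreasing in `N` and `Λ (y (j + 1)) / Λ (y j) → 1`, so the limit holds for all `N`.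
(For the second moment it may be easiest to use the functions `1_{n ∈ A} - r (π ω) n`: for `n ≠ n'` and bounded measurable `f` of `π`,
`∫ 1_{n ∈ A} 1_{n' ∈ A} f(π) = ∫ r x n * r x n' * f x dν`, which follows from `law` for indicators `f`, hence by the equality of the finite measures
`B ↦ μ ({n, n' ∈ A} ∩ π ⁻¹' B)` and `B ↦ ∫ x in B, r x n * r x n'` (`Measure.withDensity`) for all `f`.) -/
def J_SLL : Prop := ∀ (X : Type) [MeasurableSpace X] (ν : Measure X) [IsProbabilityMeasure ν] (r : X → ℕ → ℝ),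
  (∀ n, Measurable (fun x => r x n)) → (∀ x n, 0 ≤ r x n ∧ r x n ≤ 1) →
  ∀ (Ω : Type) [MeasurableSpace Ω] (μ : Measure Ω) [IsProbabilityMeasure μ] (A : Ω → Set ℕ) (π : Ω → X), Mixed ν r μ A π →
  ∀ (U : Set ℕ) (Λ : ℕ → ℝ) (C : ℝ), Monotone Λ → Tendsto Λ atTop atTop → (∀ n, Λ (n + 1) ≤ Λ n + C) → ∀ u : X → ℝ,
    (∀ᵐ x ∂ν, Tendsto (fun N : ℕ => (∑ n ∈ ind U N, r x n) / Λ N) atTop (𝓝 (u x))) →
    ∀ᵐ ω ∂μ, Tendsto (fun N : ℕ => (cnt U (A ω) N : ℝ) / Λ N) atTop (𝓝 (u (π ω)))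

/-- **Job LOW** (uses CON, ENM, KLB, SLL). The laws of the limit: construction.
Proof. `X = ℝ`, `ν` given. Let `s N = sup_{n ∈ U, n ≥ N} p n` (nonincreasing, `→ 0`; it exists as `p n < 1`) and, for a real `a ≥ 0`, `N₀ a` = the least `N` with
`s N ≤ 1 / 2` and `√(s N) (a ^ 2 + 1) ≤ 1` (monotone in `a`, so measurable); `r a n = a * p n` for `n ∈ U`, `N₀ a ≤ n`; `r a n = 0` for `n ∉ U` or `a < 0` (irrelevant),
and `r a n = p n` for `n ∈ U`, `n < N₀ a`. For `n ≥ N₀ a`: `a p n ≤ 1`, and by KLB `kl (a p n) (p n) ≤ p n hfun a + (a ^ 2 + 1) p n ^ 2 ≤ p n hfun a + p n ^ (3 / 2)`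
(`(a ^ 2 + 1) √(p n) ≤ 1`). So `∑ n ∈ ind U x, kl ≤ mass x * hfun a + ∑ n ∈ ind U x, p n ^ (3 / 2)`, the last sum is `o(mass x)` (`p n → 0`, Stolz), and by ENM
`relEnt ≤ mass x * ∫ hfun dν + o(mass x) ≤ (δ + o(1)) mass x` (`hfun ≥ 0`). SLL with `Λ = mass U p`, `C = 1`: `∑ r a n / mass → a`. `L = π`. If `L ω = 0`: `r 0 n = 0` for all
`n ∈ U`, `n ≥ N₀ 0`; the event `π = 0` and `n ∈ A` for some such `n` is null (`law` with `F = T = {n}`, `B = {0}`). -/
def J_LOW : Prop := ∀ (U : Set ℕ) (p : ℕ → ℝ) (δ : ℝ), Rates U p → 0 ≤ δ → ∀ (ν : Measure ℝ) [IsProbabilityMeasure ν], ν (Set.Iio 0) = 0 →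
  ∫⁻ u, ENNReal.ofReal (hfun u) ∂ν ≤ ENNReal.ofReal δ →
  ∃ (Ω : Type) (_ : MeasurableSpace Ω) (μ : Measure Ω) (_ : IsProbabilityMeasure μ) (A : Ω → Set ℕ) (L : Ω → ℝ), IsRandomSet A ∧
    Measurable L ∧ μ.map L = ν ∧
    (∀ ε : ℝ, 0 < ε → ∀ᶠ x : ℕ in atTop, relEnt p μ A (ind U x) ≤ (δ + ε) * mass U p x) ∧
    (∀ᵐ ω ∂μ, Tendsto (fun x : ℕ => (cnt U (A ω) x : ℝ) / mass U p x) atTop (𝓝 (L ω))) ∧
    ∀ᵐ ω ∂μ, L ω = 0 → ∃ N : ℕ, ∀ n ∈ A ω, n ∈ U → n < N

/-- **Job ASL** (uses CON, ENM). Sharpness of the almost sure law.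
Proof. Let `m = mass U p`, `y j` the least `x` with `2 ^ j ≤ m x` (`2 ^ j ≤ m (y j) ≤ 2 ^ j + 1`), `e j = d (y j) - d (y (j - 1)) ≥ 0` for `j ≥ 1`, `J₀` such that
`p n ≤ 1 / 2` for `n ∈ U`, `n ≥ y J₀`, and `q j = min 1 (e j / (4 * 2 ^ j))` for `j ≥ J₀`, `0` otherwise. `∑ q j = ∞`: else `q j < 1` for large `j` and
`∑ e j / 2 ^ j < ∞`, so (summation by parts) `∑ d (y j) / 2 ^ j < ∞`; but
`∑_{n ∈ U, y j ≤ n < y (j + 1)} p n d n / m n ^ 2 ≤ d (y (j + 1)) (2 ^ (j + 1) + 1) / 4 ^ j`, so `Conv` would hold. Let `X = ℕ → Bool` (or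
`ℕ → ℝ`) with the product law, `P(ξ j = 1) = q j`; `r ξ n = 0` if `y j ≤ n < y (j + 1)` and `ξ j = 1`, `r ξ n = p n` otherwise (`n ∈ U`; `0` for `n ∉ U`). ENM: for `x ≤ y (j + 1)`
`relEnt ≤ ∑_{i ≤ j} q i * ∑_{n ∈ U, y i ≤ n < y (i + 1)} (-log (1 - p n)) ≤ ∑_{i ≤ j} q i * 2 * (2 ^ i + 1) ≤ ∑_{i ≤ j} e i ≤ d (y j)`, (`-log (1 - p) ≤ 2 p` for `p ≤ 1 / 2`, `J₀ ≥ 1`),
so `relEnt (ind U x) ≤ d x` for `y j ≤ x ≤ y (j + 1)`. Second Borel-Cantelli lemma: almost surely `ξ j = 1` for infinitely many `j`, and then `A` has no elements in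
`U ∩ [y j, y (j + 1))` (a null set of exceptions, by `law`), so `cnt (y (j + 1)) = cnt (y j)`; if `cnt / m → 1` this contradicts `m (y (j + 1)) / m (y j) → 2`. -/
def J_ASL : Prop := ∀ (U : Set ℕ) (p d : ℕ → ℝ), Rates U p → Monotone d → (∀ n, 0 ≤ d n) → ¬ Conv U p d →
  ∃ (Ω : Type) (_ : MeasurableSpace Ω) (μ : Measure Ω) (_ : IsProbabilityMeasure μ) (A : Ω → Set ℕ), IsRandomSet A ∧
    (∀ᶠ x : ℕ in atTop, relEnt p μ A (ind U x) ≤ d x) ∧
    ∀ᵐ ω ∂μ, ¬ Tendsto (fun x : ℕ => (cnt U (A ω) x : ℝ) / mass U p x) atTop (𝓝 1)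

/-- The expected density of the Mersenne exponents (Wagstaff), at most `1 / 2`. -/
noncomputable def wag (n : ℕ) : ℝ := min (1 / 2) (Real.exp Real.eulerMascheroniConstant / Real.log 2 * Real.log n / n)

/-- **Job WAG.** Mertens' theorem for these probabilities.
Proof. `wag n = (e ^ γ / log 2) log n / n` for all large `n`, and `∑_{p < x} log p / p = log x + O(1)` (Mertens; it is in the team library, look for `log p / p`, e.g. in the
imports of the results of MP_9b2bac_nt); `log n / n → 0`. -/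
def J_WAG : Prop := Rates {n | n.Prime} wag ∧
  Tendsto (fun x : ℕ => mass {n | n.Prime} wag x / Real.log x) atTop (𝓝 (Real.exp Real.eulerMascheroniConstant / Real.log 2))

end Pool.Agent.Q120.ME
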